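import Pool.Agent.EGF.StmtsR

/-!
# Squad EGF, block R, row RBB (helper28)
-/

set_option autoImplicit false

open Finset

namespace Pool.Agent.EGF.H28

theorem rbb (hEnt : EntStmt) : RbbStmt := by
  intro V _ k c X0 Lo C y lam hX0 hlam hmiss
  classical
  have hX0c : (0 : ℝ) < X0.card := by exact_mod_cast card_pos.2 hX0
  set Γ : Finset ℕ := Lo.filter fun l =>
    ((X0.filter fun x => c x (y l) ∉ C).card : ℝ) ≤ lam * X0.card with hΓ
  have hdc : ∑ l ∈ Lo, ((X0.filter fun x => c x (y l) ∉ C).card : ℝ) =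
      ∑ x ∈ X0, ((Lo.filter fun l => c x (y l) ∉ C).card : ℝ) := by
    have : ∑ l ∈ Lo, (X0.filter fun x => c x (y l) ∉ C).card =
        ∑ x ∈ X0, (Lo.filter fun l => c x (y l) ∉ C).card := by
      simp only [card_eq_sum_ones, sum_filter]
      rw [sum_comm]
    exact_mod_cast this
  have hup : ∑ x ∈ X0, ((Lo.filter fun l => c x (y l) ∉ C).card : ℝ) ≤
      X0.card * (lam ^ 2 * Lo.card) := by
    rw [← nsmul_eq_mul]
    exact Finset.sum_le_card_nsmul X0 _ _ hmiss
  have hlow : ((Lo \ Γ).card : ℝ) * (lam * X0.card) ≤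
      ∑ l ∈ Lo, ((X0.filter fun x => c x (y l) ∉ C).card : ℝ) := by
    rw [← nsmul_eq_mul]
    refine (Finset.card_nsmul_le_sum (Lo \ Γ) _ _ ?_).trans
      (sum_le_sum_of_subset_of_nonneg sdiff_subset fun _ _ _ => Nat.cast_nonneg _)
    intro l hl
    rw [mem_sdiff, hΓ, mem_filter] at hl
    by_contra hcon
    exact hl.2 ⟨hl.1, (not_le.1 hcon).le⟩
  have hLoΓ : ((Lo \ Γ).card : ℝ) ≤ lam * Lo.card := by
    have h1 : (lam * X0.card) * ((Lo \ Γ).card : ℝ) ≤ (lam * X0.card) * (lam * Lo.card) := by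
      have h2 := hlow.trans (hdc.trans_le hup)
      have h3 : (X0.card : ℝ) * (lam ^ 2 * Lo.card) = (lam * X0.card) * (lam * Lo.card) := by ring
      have h4 : ((Lo \ Γ).card : ℝ) * (lam * X0.card) = (lam * X0.card) * ((Lo \ Γ).card : ℝ) := by
        ring
      linarith
    exact le_of_mul_le_mul_left h1 (by positivity)
  have hΓLo : Γ ⊆ Lo := filter_subset _ _
  have hΓc : (Γ.card : ℝ) ≤ Lo.card := by exact_mod_cast card_le_card hΓLo
  obtain ⟨Z1, hZ1, W, hWX, hWne, hZ1c, hWS, hlogW⟩ := hEnt V ℕ Γ X0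
    (fun l => X0.filter fun x => c x (y l) ∈ C) lam hlam hX0 (by
      intro l hl
      have h1 : X0 ⊆ (X0 ∩ X0.filter fun x => c x (y l) ∈ C) ∪
          (X0.filter fun x => c x (y l) ∉ C) := by
        intro x hx
        by_cases h : c x (y l) ∈ C
        · exact mem_union_left _ (mem_inter.2 ⟨hx, mem_filter.2 ⟨hx, h⟩⟩)
        · exact mem_union_right _ (mem_filter.2 ⟨hx, h⟩)
      have h2 : X0.card ≤ (X0 ∩ X0.filter fun x => c x (y l) ∈ C).card +
          (X0.filter fun x => c x (y l) ∉ C).card :=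
        (card_le_card h1).trans (card_union_le _ _)
      have h2' : (X0.card : ℝ) ≤ (X0 ∩ X0.filter fun x => c x (y l) ∈ C).card +
          (X0.filter fun x => c x (y l) ∉ C).card := by exact_mod_cast h2
      have h3 := (mem_filter.1 hl).2
      linarith)
  refine ⟨W, hWX, Z1 ∪ (Lo \ Γ), union_subset (hZ1.trans hΓLo) sdiff_subset, hWne, ?_, ?_, ?_⟩
  · have h1 : ((Z1 ∪ (Lo \ Γ)).card : ℝ) ≤ Z1.card + (Lo \ Γ).card := by
      exact_mod_cast card_union_le _ _
    have h2 : 2 * lam * (Γ.card : ℝ) ≤ 2 * lam * Lo.card :=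
      mul_le_mul_of_nonneg_left hΓc (by positivity)
    linarith
  · intro x hx l hl
    rw [mem_sdiff, mem_union, not_or, mem_sdiff, not_and, not_not] at hl
    exact (mem_filter.1 (hWS l (mem_sdiff.2 ⟨hl.2.2 hl.1, hl.2.1⟩) hx)).2
  · have h1 : 3 * √lam * (Γ.card : ℝ) ≤ 3 * √lam * Lo.card :=
      mul_le_mul_of_nonneg_left hΓc (by positivity)
    linarith

end Pool.Agent.EGF.H28
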