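import Pool.Agent.EGF.StmtsU

set_option autoImplicit false

/-!
# EGF, row UPM (helper28)
-/

open Finset

namespace Pool.Agent.EGF.H28

/-- **Row UPM.** -/
theorem upm : UpmStmt := by
  intro X Y _ _ A B f E d hf hE hd hsat ν α hα hν S hS hSa
  by_contra hcon
  rw [not_lt] at hcon
  have hSpos : (0 : ℝ) < S.card := lt_of_lt_of_le hE hcon
  have hSne : S.Nonempty := by
    rw [← Finset.card_pos]
    exact_mod_cast hSpos
  have hf0 : ∀ a b, 0 ≤ f a b := by
    intro a b
    rcases hf a b with h | h <;> rw [h]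
    norm_num
  have hf1 : ∀ a b, f a b ≤ 1 := by
    intro a b
    rcases hf a b with h | h <;> rw [h]
    norm_num
  obtain ⟨B', hB'⟩ : ∃ B' : Finset Y, B' = B.filter (fun b => d * S.card < ∑ a ∈ S, f a b) :=
    ⟨_, rfl⟩
  have hB'B : B' ⊆ B := by
    rw [hB']
    exact Finset.filter_subset _ _
  have hcard : (B'.card : ℝ) < E := by
    by_contra h
    rw [not_lt] at h
    have h1 := hsat S hS B' hB'B hcon h
    have hB'pos : (0 : ℝ) < B'.card := lt_of_lt_of_le hE h
    have hB'ne : B'.Nonempty := by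
      rw [← Finset.card_pos]
      exact_mod_cast hB'pos
    rw [Finset.sum_comm] at h1
    have h2 : ∑ b ∈ B', d * (S.card : ℝ) < ∑ b ∈ B', ∑ a ∈ S, f a b := by
      apply Finset.sum_lt_sum_of_nonempty hB'ne
      intro b hb
      rw [hB', Finset.mem_filter] at hb
      exact hb.2
    rw [Finset.sum_const, nsmul_eq_mul] at h2
    have h3 : (B'.card : ℝ) * (d * S.card) = d * (S.card * B'.card) := by ring
    rw [h3] at h2
    exact absurd h1 (not_le.mpr h2)
  have hup : ∑ a ∈ S, ∑ b ∈ B, ν b * f a b ≤ S.card * (d * (∑ b ∈ B, ν b) + E * α) := by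
    rw [Finset.sum_comm]
    have h1 : ∀ b ∈ B, ∑ a ∈ S, ν b * f a b ≤
        ν b * (d * S.card) + (if b ∈ B' then α * S.card else 0) := by
      intro b hb
      obtain ⟨hν0, hνα⟩ := hν b hb
      rw [← Finset.mul_sum]
      by_cases hbB : b ∈ B'
      · rw [if_pos hbB]
        have h2 : ∑ a ∈ S, f a b ≤ S.card := by
          calc ∑ a ∈ S, f a b ≤ ∑ _a ∈ S, (1 : ℝ) := Finset.sum_le_sum (fun a _ => hf1 a b)
            _ = S.card := by rw [Finset.sum_const, nsmul_eq_mul, mul_one]
        have h3 : 0 ≤ ∑ a ∈ S, f a b := Finset.sum_nonneg (fun a _ => hf0 a b)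
        have h4 : ν b * ∑ a ∈ S, f a b ≤ α * S.card := mul_le_mul hνα h2 h3 hα
        have h5 : 0 ≤ ν b * (d * S.card) := mul_nonneg hν0 (mul_nonneg hd hSpos.le)
        linarith
      · rw [if_neg hbB, add_zero]
        apply mul_le_mul_of_nonneg_left _ hν0
        rw [hB', Finset.mem_filter, not_and] at hbB
        exact not_lt.mp (hbB hb)
    refine (Finset.sum_le_sum h1).trans ?_
    rw [Finset.sum_add_distrib, ← Finset.sum_mul, Finset.sum_ite_mem,
      Finset.inter_eq_right.mpr hB'B, Finset.sum_const, nsmul_eq_mul]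
    have h6 : (B'.card : ℝ) * (α * S.card) ≤ E * (α * S.card) :=
      mul_le_mul_of_nonneg_right hcard.le (mul_nonneg hα hSpos.le)
    calc (∑ b ∈ B, ν b) * (d * S.card) + (B'.card : ℝ) * (α * S.card)
        ≤ (∑ b ∈ B, ν b) * (d * S.card) + E * (α * S.card) := by linarith
      _ = S.card * (d * (∑ b ∈ B, ν b) + E * α) := by ring
  have hlow : S.card * (d * (∑ b ∈ B, ν b) + E * α) < ∑ a ∈ S, ∑ b ∈ B, ν b * f a b := by
    have h1 := Finset.sum_lt_sum_of_nonempty hSne hSa
    rw [Finset.sum_const, nsmul_eq_mul] at h1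
    exact h1
  exact absurd hup (not_le.mpr hlow)

end Pool.Agent.EGF.H28
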